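import Pool.Agent.W889.TV.Basic

set_option autoImplicit false

/-! The dichotomy for a group with an action on `ℕ` without algebraicity implies the dichotomy for
the group of all permutations of `ℕ`. -/

namespace Pool.Agent.V11227.NA

open Set Function Pool.Agent.W889.TV

/-- the first occurrences of colours before the first occurrence of the colour `i` -/
def S (c : ℕ → ℕ) (i : ℕ) : Set ℕ := {k | (∀ l < k, c l ≠ c k) ∧ ∀ l ≤ k, c l ≠ i}

/-- the colours are renamed in the order of their first occurrences -/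
noncomputable def nrm (c : ℕ → ℕ) (m : ℕ) : ℕ := (S c (c m)).ncard

theorem S_sub (c : ℕ → ℕ) (m : ℕ) : S c (c m) ⊆ Set.Iio m := by
  intro k hk
  by_contra h
  exact hk.2 m (not_lt.1 h) rfl

theorem S_fin (c : ℕ → ℕ) (m : ℕ) : (S c (c m)).Finite := (Set.finite_Iio m).subset (S_sub c m)

theorem nrm_congr {c d : ℕ → ℕ} (h : ∀ a b, c a = c b ↔ d a = d b) : nrm c = nrm d := by
  funext m
  unfold nrm
  congr 1
  ext k
  simp only [S, mem_ofPred_eq, ne_eq, h]

theorem nrm_iff (c : ℕ → ℕ) (a b : ℕ) : nrm c a = nrm c b ↔ c a = c b := by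
  classical
  constructor
  · intro h
    by_contra hne
    have key : ∀ a b : ℕ, c a ≠ c b → (∃ a', c a' = c a ∧ (∀ l < a', c l ≠ c a') ∧ ∀ l ≤ a', c l ≠ c b) →
        nrm c a ≠ nrm c b := by
      rintro a b hab ⟨a', h1, h2, h3⟩
      have hsub : S c (c a) ⊂ S c (c b) := by
        refine ⟨?_, ?_⟩
        · rintro k ⟨hk1, hk2⟩
          refine ⟨hk1, ?_⟩
          have hk : k < a' := by
            by_contra hk
            exact hk2 a' (not_lt.1 hk) h1
          exact fun l hl => h3 l (hl.trans hk.le)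
        · intro hs
          have : a' ∈ S c (c a) := hs ⟨h2, h3⟩
          exact this.2 a' le_rfl h1
      exact (Set.ncard_lt_ncard hsub (S_fin c b)).ne
    have ha : ∃ k, c k = c a := ⟨a, rfl⟩
    have hb : ∃ k, c k = c b := ⟨b, rfl⟩
    have ha1 := Nat.find_spec ha
    have hb1 := Nat.find_spec hb
    rcases lt_trichotomy (Nat.find ha) (Nat.find hb) with h4 | h4 | h4
    · refine key a b hne ⟨Nat.find ha, ha1, fun l hl => ?_, fun l hl => ?_⟩ h
      · rw [ha1]
        exact Nat.find_min ha hl
      · exact Nat.find_min hb (lt_of_le_of_lt hl h4)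
    · rw [h4, hb1] at ha1
      exact hne ha1.symm
    · refine key b a (Ne.symm hne) ⟨Nat.find hb, hb1, fun l hl => ?_, fun l hl => ?_⟩ h.symm
      · rw [hb1]
        exact Nat.find_min hb hl
      · exact Nat.find_min ha (lt_of_le_of_lt hl h4)
  · intro h
    unfold nrm
    rw [h]

theorem nrm_nrm (c : ℕ → ℕ) : nrm (nrm c) = nrm c := nrm_congr (nrm_iff c)

theorem nrm_surj {c : ℕ → ℕ} (hc : Surjective c) : Surjective (nrm c) := by
  classical
  have hinf : ({k : ℕ | ∀ l < k, c l ≠ c k}).Infinite := by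
    refine Set.infinite_of_injective_forall_mem (f := fun i => Nat.find (hc i)) ?_ ?_
    · intro i j hij
      have h1 := Nat.find_spec (hc i)
      have h2 := Nat.find_spec (hc j)
      simp only at hij
      rw [hij, h2] at h1
      exact h1.symm
    · intro i l hl
      rw [Nat.find_spec (hc i)]
      exact Nat.find_min (hc i) hl
  intro n
  set p : ℕ → Prop := fun k => ∀ l < k, c l ≠ c k with hp
  refine ⟨Nat.nth p n, ?_⟩
  have h1 : p (Nat.nth p n) := Nat.nth_mem_of_infinite hinf n
  unfold nrm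
  have h2 : S c (c (Nat.nth p n)) = {k | k < Nat.nth p n ∧ p k} := by
    ext k
    constructor
    · intro hk
      exact ⟨S_sub c _ hk, hk.1⟩
    · rintro ⟨hk1, hk2⟩
      exact ⟨hk2, fun l hl => h1 l (lt_of_le_of_lt hl hk1)⟩
  rw [h2]
  have h3 := Nat.count_nth_of_infinite hinf n
  rw [Nat.count_eq_card_filter_range] at h3
  refine Eq.trans ?_ h3
  rw [← Set.ncard_coe_finset]
  congr 1
  ext k
  simp

/-- the permutation which renames the colours -/
noncomputable def tp (c : ℕ → ℕ) : Equiv.Perm ℕ := by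
  classical
  exact if h : Surjective c then Equiv.ofBijective (fun i => nrm c (Nat.find (h i)))
    ⟨fun i j hij => by
      have h1 := (nrm_iff c _ _).1 hij
      rwa [Nat.find_spec (h i), Nat.find_spec (h j)] at h1,
    fun j => by
      obtain ⟨m, hm⟩ := nrm_surj h j
      refine ⟨c m, ?_⟩
      rw [← hm]
      exact (nrm_iff c _ _).2 (Nat.find_spec (h (c m)))⟩ else 1

theorem tp_apply {c : ℕ → ℕ} (hc : Surjective c) (m : ℕ) : tp c (c m) = nrm c m := by
  classical
  unfold tp
  rw [dif_pos hc]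
  exact (nrm_iff c _ _).2 (Nat.find_spec (hc (c m)))

theorem tp_eq {c : ℕ → ℕ} (hc : Surjective c) (τ : Equiv.Perm ℕ) (h : ∀ m, τ (c m) = nrm c m) :
    tp c = τ := by
  ext i
  obtain ⟨m, rfl⟩ := hc i
  rw [tp_apply hc, h]

theorem measurable_nrm : Measurable nrm := by
  classical
  rw [measurable_pi_iff]
  intro m
  have h : (fun c : ℕ → ℕ => nrm c m) = fun c => ∑ k ∈ Finset.range m,
      if (∀ l < k, c l ≠ c k) ∧ ∀ l ≤ k, c l ≠ c m then 1 else 0 := by
    funext c
    unfold nrm
    rw [← Finset.card_filter, ← Set.ncard_coe_finset]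
    congr 1
    ext k
    constructor
    · intro hk
      simp only [Finset.coe_filter, Finset.mem_range, mem_ofPred_eq]
      exact ⟨S_sub c m hk, hk⟩
    · intro hk
      simp only [Finset.coe_filter, Finset.mem_range, mem_ofPred_eq] at hk
      exact hk.2
  rw [h]
  refine Finset.measurable_sum _ fun k _ => ?_
  refine Measurable.ite ?_ measurable_const measurable_const
  have e : ∀ a b : ℕ, MeasurableSet {c : ℕ → ℕ | c a ≠ c b} := fun a b =>
    (measurableSet_eq_fun (measurable_pi_apply a) (measurable_pi_apply b)).compl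
  have e1 : {c : ℕ → ℕ | (∀ l < k, c l ≠ c k) ∧ ∀ l ≤ k, c l ≠ c m} =
      (⋂ l ∈ {l : ℕ | l < k}, {c | c l ≠ c k}) ∩ ⋂ l ∈ {l : ℕ | l ≤ k}, {c | c l ≠ c m} := by
    ext c
    simp
  rw [e1]
  exact (MeasurableSet.biInter (Set.to_countable _) fun l _ => e l k).inter
    (MeasurableSet.biInter (Set.to_countable _) fun l _ => e l m)

end Pool.Agent.V11227.NA
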