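import Pool.Agent.V11227.NA.Core

set_option autoImplicit false

/-! The dichotomy for a group with an action on `ℕ` without algebraicity implies the dichotomy for
the group of all permutations of `ℕ`: the induced action. -/

namespace Pool.Agent.V11227.NA

open Set Function Pool.Agent.W889.TV

section

variable {G : Type} [Group G] (φ : G →* Equiv.Perm ℕ) (X : Type)

/-- normalised generic colourings of `ℕ` together with a point of `X` -/
def Y : Type := {p : (ℕ → ℕ) × X // Gen φ p.1 ∧ nrm p.1 = p.1}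

variable {φ X}

/-- the colouring moved by `g` -/
def mv (φ : G →* Equiv.Perm ℕ) (g : G) (c : ℕ → ℕ) : ℕ → ℕ := fun m => c (φ g⁻¹ m)

theorem gen_mv {c : ℕ → ℕ} (h : Gen φ c) (g : G) : Gen φ (mv φ g c) := gen_map h g 1

theorem surj_of_gen {c : ℕ → ℕ} (h : Gen φ c) : Surjective c := gen_surj h

theorem gen_nrm {c : ℕ → ℕ} (h : Gen φ c) : Gen φ (nrm c) := by
  have h1 := gen_map h 1 (tp c)
  have h2 : (fun a => tp c (c (φ 1⁻¹ a))) = nrm c := by
    funext a
    rw [inv_one, map_one, Equiv.Perm.one_apply, tp_apply (surj_of_gen h)]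
  rwa [h2] at h1

theorem mv_mv (g h : G) (c : ℕ → ℕ) : mv φ g (mv φ h c) = mv φ (g * h) c := by
  funext m
  unfold mv
  rw [mul_inv_rev, map_mul, Equiv.Perm.mul_apply]

theorem nrm_mv_nrm (g : G) (c : ℕ → ℕ) : nrm (mv φ g (nrm c)) = nrm (mv φ g c) :=
  nrm_congr fun a b => nrm_iff c _ _

theorem tp_mul {c : ℕ → ℕ} (h : Gen φ c) (g : G) :
    tp (mv φ g c) = tp (mv φ g (nrm c)) * tp c := by
  refine tp_eq (surj_of_gen (gen_mv h g)) _ fun m => ?_
  rw [Equiv.Perm.mul_apply]
  have h1 : tp c (mv φ g c m) = mv φ g (nrm c) m := tp_apply (surj_of_gen h) _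
  rw [h1, tp_apply (surj_of_gen (gen_mv (gen_nrm h) g)), nrm_mv_nrm]

variable [MulAction (Equiv.Perm ℕ) X]

noncomputable instance : SMul G (Y φ X) where
  smul g y := ⟨(nrm (mv φ g y.1.1), tp (mv φ g y.1.1) • y.1.2),
    gen_nrm (gen_mv y.2.1 g), nrm_nrm _⟩

theorem smul_def (g : G) (y : Y φ X) :
    (g • y).1 = (nrm (mv φ g y.1.1), tp (mv φ g y.1.1) • y.1.2) := rfl

noncomputable instance : MulAction G (Y φ X) where
  one_smul y := by
    have h1 : mv φ 1 y.1.1 = y.1.1 := by
      funext m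
      unfold mv
      rw [inv_one, map_one, Equiv.Perm.one_apply]
    have h2 : tp y.1.1 = 1 := tp_eq (surj_of_gen y.2.1) 1 fun m => by
      rw [y.2.2, Equiv.Perm.one_apply]
    apply Subtype.ext
    rw [smul_def, h1, h2, one_smul, y.2.2]
  mul_smul g h y := by
    apply Subtype.ext
    rw [smul_def, smul_def, smul_def]
    have h0 := gen_mv y.2.1 h
    have h1 := tp_mul h0 g
    rw [mv_mv] at h1
    ext1
    · show nrm _ = nrm _
      rw [nrm_mv_nrm, mv_mv]
    · show tp _ • _ = tp _ • tp _ • _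
      rw [h1, mul_smul]

theorem orbit_iff
    (closed : ∀ σ : Equiv.Perm ℕ, (∀ F : Finset ℕ, ∃ g, ∀ a ∈ F, φ g a = σ a) → ∃ g, φ g = σ)
    (y z : Y φ X) : (∃ g : G, g • y = z) ↔ ∃ τ : Equiv.Perm ℕ, τ • y.1.2 = z.1.2 := by
  constructor
  · rintro ⟨g, rfl⟩
    exact ⟨tp (mv φ g y.1.1), rfl⟩
  · rintro ⟨τ, hτ⟩
    obtain ⟨g, hg⟩ := gen_conj closed y.2.1 z.2.1 τ
    have e1 : ∀ x, φ g (φ g⁻¹ x) = x := fun x => by
      rw [← Equiv.Perm.mul_apply, ← map_mul]
      simp
    have h1 : ∀ m, z.1.1 m = τ (mv φ g y.1.1 m) := fun m => by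
      have := hg (φ g⁻¹ m)
      rwa [e1] at this
    have h2 : nrm (mv φ g y.1.1) = z.1.1 := by
      rw [← z.2.2]
      refine nrm_congr fun a b => ?_
      rw [h1, h1, τ.injective.eq_iff]
    have h3 : tp (mv φ g y.1.1) = τ := tp_eq (surj_of_gen (gen_mv y.2.1 g)) τ fun m => by
      rw [h2, h1]
    refine ⟨g, Subtype.ext ?_⟩
    rw [smul_def, h2, h3, hτ]

end

section meas

variable {G : Type} [Group G] [MeasurableSpace G] (φ : G →* Equiv.Perm ℕ) (X : Type)
  [MeasurableSpace X]

theorem measurableSet_Y : MeasurableSet {p : (ℕ → ℕ) × X | Gen φ p.1 ∧ nrm p.1 = p.1} := by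
  have h1 : MeasurableSet {c : ℕ → ℕ | Gen φ c} := by
    have e : {c : ℕ → ℕ | Gen φ c} = ⋂ (i : ℕ) (F : Finset ℕ) (a : ℕ),
        ({c : ℕ → ℕ | a ∈ F} ∪ ⋃ b : ℕ, {c : ℕ → ℕ | Orb φ F a b} ∩ {c | c b = i}) := by
      ext c
      simp only [mem_ofPred_eq, mem_iInter, mem_union, mem_iUnion, mem_inter_iff, Gen]
      exact forall_congr' fun i => forall_congr' fun F => forall_congr' fun a =>
        ⟨fun h => or_iff_not_imp_left.2 h, fun h => or_iff_not_imp_left.1 h⟩
    rw [e]
    refine MeasurableSet.iInter fun i => MeasurableSet.iInter fun F => MeasurableSet.iInter fun a =>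
      MeasurableSet.union (MeasurableSet.const _) (MeasurableSet.iUnion fun b =>
        (MeasurableSet.const _).inter ?_)
    exact measurableSet_eq_fun (measurable_pi_apply b) measurable_const
  have h2 : MeasurableSet {c : ℕ → ℕ | nrm c = c} := by
    have e : {c : ℕ → ℕ | nrm c = c} = ⋂ m : ℕ, {c | nrm c m = c m} := by
      ext c
      simp only [mem_ofPred_eq, mem_iInter, funext_iff]
    rw [e]
    exact MeasurableSet.iInter fun m => measurableSet_eq_fun
      ((measurable_pi_apply m).comp measurable_nrm) (measurable_pi_apply m)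
  exact (measurable_fst h1).inter (measurable_fst h2)

instance : MeasurableSpace (Y φ X) := inferInstanceAs (MeasurableSpace
  {p : (ℕ → ℕ) × X // Gen φ p.1 ∧ nrm p.1 = p.1})

instance [StandardBorelSpace X] : StandardBorelSpace (Y φ X) :=
  (measurableSet_Y φ X).standardBorel

variable {φ X}

theorem measurable_mv (hφ : ∀ a b, MeasurableSet {g : G | φ g a = b}) :
    Measurable fun p : G × (ℕ → ℕ) => mv φ p.1 p.2 := by
  rw [measurable_pi_iff]
  intro m
  refine measurable_to_countable' fun i => ?_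
  have e : (fun p : G × (ℕ → ℕ) => mv φ p.1 p.2 m) ⁻¹' {i} =
      ⋃ k : ℕ, {p : G × (ℕ → ℕ) | φ p.1 k = m} ∩ {p | p.2 k = i} := by
    ext p
    simp only [mem_preimage, mem_singleton_iff, mem_iUnion, mem_inter_iff, mem_ofPred_eq, mv]
    constructor
    · intro h
      refine ⟨φ p.1⁻¹ m, ?_, h⟩
      rw [← Equiv.Perm.mul_apply, ← map_mul]
      simp
    · rintro ⟨k, hk, h⟩
      rw [← hk, ← Equiv.Perm.mul_apply, ← map_mul]
      simpa using h
  rw [e]
  refine MeasurableSet.iUnion fun k => ?_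
  exact (measurable_fst (hφ k m)).inter
    (measurableSet_eq_fun ((measurable_pi_apply k).comp measurable_snd) measurable_const)

theorem measurable_tp {Z : Type} [MeasurableSpace Z] {f : Z → ℕ → ℕ} (hf : Measurable f)
    (hs : ∀ z, Surjective (f z)) : Measurable fun z => tp (f z) := by
  refine measurable_perm fun i => measurable_to_countable' fun j => ?_
  have e : (fun z => tp (f z) i) ⁻¹' {j} = ⋃ m : ℕ, {z | f z m = i} ∩ {z | nrm (f z) m = j} := by
    ext z
    simp only [mem_preimage, mem_singleton_iff, mem_iUnion, mem_inter_iff, mem_ofPred_eq]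
    constructor
    · intro h
      obtain ⟨m, hm⟩ := hs z i
      refine ⟨m, hm, ?_⟩
      rw [← tp_apply (hs z), hm, h]
    · rintro ⟨m, rfl, h⟩
      rw [tp_apply (hs z), h]
  rw [e]
  refine MeasurableSet.iUnion fun m => ?_
  exact (measurableSet_eq_fun ((measurable_pi_apply m).comp hf) measurable_const).inter
    (measurableSet_eq_fun ((measurable_pi_apply m).comp (measurable_nrm.comp hf)) measurable_const)

theorem measurableSMul (hφ : ∀ a b, MeasurableSet {g : G | φ g a = b})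
    [MulAction (Equiv.Perm ℕ) X] [MeasurableSMul₂ (Equiv.Perm ℕ) X] :
    MeasurableSMul₂ G (Y φ X) := by
  constructor
  have h0 : Measurable fun p : G × Y φ X => mv φ p.1 p.2.1.1 :=
    (measurable_mv hφ).comp (measurable_fst.prodMk
      (measurable_fst.comp (measurable_subtype_coe.comp measurable_snd)))
  refine Measurable.subtype_mk ?_
  refine Measurable.prodMk (measurable_nrm.comp h0) ?_
  exact (measurable_tp h0 fun p => surj_of_gen (gen_mv p.2.2.1 p.1)).smul
    (measurable_snd.comp (measurable_subtype_coe.comp measurable_snd))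

/-- The dichotomy for `G` implies the dichotomy for the group of all permutations of `ℕ`. -/
theorem main (φ : G →* Equiv.Perm ℕ) (hφ : ∀ a b, MeasurableSet {g : G | φ g a = b})
    (closed : ∀ σ : Equiv.Perm ℕ, (∀ F : Finset ℕ, ∃ g, ∀ a ∈ F, φ g a = σ a) → ∃ g, φ g = σ)
    (noalg : ∀ (F : Finset ℕ) (a : ℕ), a ∉ F →
      {b | ∃ g, (∀ c ∈ F, φ g c = c) ∧ φ g a = b}.Infinite)
    (h : TVC G) : TVC (Equiv.Perm ℕ) := by
  intro X _ _ _ _
  obtain ⟨c, hc⟩ := gen_exists (φ := φ) noalg
  let c0 := nrm c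
  have hc0 : Gen φ c0 := gen_nrm hc
  have hc1 : nrm c0 = c0 := nrm_nrm c
  have := measurableSMul (φ := φ) (X := X) hφ
  rcases h (Y φ X) with h1 | ⟨f, hf, hf'⟩
  · left
    refine Function.Surjective.countable (f := fun q : Quotient (MulAction.orbitRel G (Y φ X)) =>
      Quotient.lift (fun y : Y φ X => (Quotient.mk (MulAction.orbitRel (Equiv.Perm ℕ) X) y.1.2)) ?_ q) ?_
    · intro y z hyz
      obtain ⟨g, hg⟩ := (MulAction.orbitRel_apply.1 hyz)
      apply Quotient.sound
      refine MulAction.orbitRel_apply.2 ?_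
      obtain ⟨τ, hτ⟩ := (orbit_iff closed z y).1 ⟨g, hg⟩
      exact ⟨τ, hτ⟩
    · intro q
      obtain ⟨x, rfl⟩ := Quotient.exists_rep q
      exact ⟨Quotient.mk _ ⟨(c0, x), hc0, hc1⟩, rfl⟩
  · right
    refine ⟨fun a => (f a).1.2, measurable_snd.comp (measurable_subtype_coe.comp hf), ?_⟩
    rintro x y hxy ⟨τ, hτ⟩
    exact hf' x y hxy ((orbit_iff closed _ _).2 ⟨τ, hτ⟩)

end meas

end Pool.Agent.V11227.NA
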