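import Pool.Agent.V11227.NA.Sub

set_option autoImplicit false

/-! Representation of Borel actions of one group as Borel actions of another one. -/

namespace Pool.Agent.V11227.NA

open Set Function Pool.Agent.W889.TV

/-- Every Borel action of `K` is, up to a Borel isomorphism of the orbit spaces, one of `G`. -/
def Rep (G K : Type) [Group G] [MeasurableSpace G] [Group K] [MeasurableSpace K] : Prop :=
  ∀ (X : Type) [MeasurableSpace X] [StandardBorelSpace X] [MulAction K X] [MeasurableSMul₂ K X],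
    ∃ (Y : Type) (_ : MeasurableSpace Y) (_ : StandardBorelSpace Y) (_ : MulAction G Y)
      (_ : MeasurableSMul₂ G Y) (p : Y → X) (s : X → Y), Measurable p ∧ Measurable s ∧
      (∀ x, p (s x) = x) ∧ ∀ y z : Y, (∃ g : G, g • y = z) ↔ ∃ k : K, k • p y = p z

theorem Rep.trans {G H K : Type} [Group G] [MeasurableSpace G] [Group H] [MeasurableSpace H]
    [Group K] [MeasurableSpace K] (h1 : Rep G H) (h2 : Rep H K) : Rep G K := by
  intro X _ _ _ _
  obtain ⟨Y, _, _, _, _, p, s, hp, hs, hps, ho⟩ := h2 X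
  obtain ⟨Z, i1, i2, i3, i4, q, t, hq, ht, hqt, ho'⟩ := h1 Y
  refine ⟨Z, i1, i2, i3, i4, p ∘ q, t ∘ s, hp.comp hq, ht.comp hs, fun x => ?_, fun y z => ?_⟩
  · simp only [comp_apply, hqt, hps]
  · rw [ho', ho]
    rfl

theorem Rep.tvc {G K : Type} [Group G] [MeasurableSpace G] [Group K] [MeasurableSpace K]
    (h : Rep G K) (hG : TVC G) : TVC K := by
  intro X _ _ _ _
  obtain ⟨Y, _, _, _, _, p, s, hp, hs, hps, ho⟩ := h X
  rcases hG Y with h1 | ⟨f, hf, hf'⟩
  · left
    let F : Quotient (MulAction.orbitRel G Y) → Quotient (MulAction.orbitRel K X) :=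
      Quotient.map p (by
        intro w z hwz
        have h1 : ∃ u : G, u • z = w := hwz
        exact (ho z w).1 h1)
    have hF : Function.Surjective F := by
      intro c
      induction c using Quotient.inductionOn with
      | h x => exact ⟨Quotient.mk _ (s x), by
        show Quotient.mk _ (p (s x)) = _
        rw [hps]⟩
    exact hF.countable
  · right
    exact ⟨fun c => p (f c), hp.comp hf, fun x y hxy hg => hf' x y hxy ((ho _ _).2 hg)⟩

theorem rep_sub {U : Type} [TopologicalSpace U] [Group U] [IsTopologicalGroup U]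
    [PolishSpace U] [MeasurableSpace U] [BorelSpace U] (H : Subgroup U)
    (hH : IsClosed (H : Set U)) : Rep U H := by
  intro X _ _ _ _
  obtain ⟨σ, h1, h2, h3⟩ := Pool.Agent.V1170.UT.coset_selector U H hH
  have : PolishSpace H := hH.polishSpace
  let D : Pool.Agent.V1170.UT.Dat U H :=
    { G := H, p := MonoidHom.id H, hp := continuous_id, hs := fun x => ⟨x, rfl⟩,
      σ := σ, hσ := h1, mem := h2, inv := h3 }
  exact ⟨Pool.Agent.V1170.UT.Sp D X, inferInstance, inferInstance, inferInstance, inferInstance,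
    Pool.Agent.V1170.UT.prj D, Pool.Agent.V1170.UT.inc D, Pool.Agent.V1170.UT.prj_measurable D,
    Pool.Agent.V1170.UT.inc_measurable D, fun x => rfl, Pool.Agent.V1170.UT.orbit_iff D⟩

theorem rep_main {G : Type} [Group G] [MeasurableSpace G] (φ : G →* Equiv.Perm ℕ)
    (hφ : ∀ a b, MeasurableSet {g : G | φ g a = b})
    (closed : ∀ σ : Equiv.Perm ℕ, (∀ F : Finset ℕ, ∃ g, ∀ a ∈ F, φ g a = σ a) → ∃ g, φ g = σ)
    (noalg : ∀ (F : Finset ℕ) (a : ℕ), a ∉ F →
      {b | ∃ g, (∀ c ∈ F, φ g c = c) ∧ φ g a = b}.Infinite) : Rep G (Equiv.Perm ℕ) := by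
  intro X _ _ _ _
  obtain ⟨c, hc⟩ := gen_exists (φ := φ) noalg
  have hc0 : Gen φ (nrm c) := gen_nrm hc
  have hc1 : nrm (nrm c) = nrm c := nrm_nrm c
  exact ⟨Y φ X, inferInstance, inferInstance, inferInstance, measurableSMul hφ,
    fun y => y.1.2, fun x => ⟨(nrm c, x), hc0, hc1⟩,
    measurable_snd.comp measurable_subtype_coe,
    (measurable_const.prodMk measurable_id).subtype_mk, fun x => rfl, orbit_iff closed⟩

theorem rep_sym : Rep (Equiv.Perm ℕ) Sym := by
  intro X i0 i00 i1 i2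
  have hle : borel Sym ≤ (permM ℕ : MeasurableSpace (Equiv.Perm ℕ)) := by
    have e := borel_eq_generateFrom_of_subbasis (α := Sym)
      (s := {V | ∃ i j : ℕ, V = {π : Sym | π.toMap i = j}}) rfl
    rw [e]
    refine MeasurableSpace.generateFrom_le ?_
    rintro _ ⟨i, j, rfl⟩
    have hm : Measurable fun σ : Equiv.Perm ℕ => σ i :=
      (measurable_pi_apply i).comp (comap_measurable _)
    exact hm (MeasurableSet.singleton j)
  let a1 : MulAction (Equiv.Perm ℕ) X := i1
  have a2 : MeasurableSMul₂ (Equiv.Perm ℕ) X := by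
    constructor
    have h3 : Measurable fun p : Sym × X => p.1 • p.2 := measurable_smul
    exact h3.mono (sup_le_sup (MeasurableSpace.comap_mono hle) le_rfl) le_rfl
  exact ⟨X, i0, i00, a1, a2, id, id, measurable_id, measurable_id, fun x => rfl,
    fun y z => Iff.rfl⟩

/-- all closed permutation groups -/
theorem rep_all {G : Type} [Group G] [MeasurableSpace G] (φ : G →* Equiv.Perm ℕ)
    (hφ : ∀ a b, MeasurableSet {g : G | φ g a = b})
    (closed : ∀ σ : Equiv.Perm ℕ, (∀ F : Finset ℕ, ∃ g, ∀ a ∈ F, φ g a = σ a) → ∃ g, φ g = σ)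
    (noalg : ∀ (F : Finset ℕ) (a : ℕ), a ∉ F →
      {b | ∃ g, (∀ c ∈ F, φ g c = c) ∧ φ g a = b}.Infinite)
    (Δ : Subgroup Sym) (hΔ : IsClosed (Δ : Set Sym)) : Rep G Δ :=
  ((rep_main φ hφ closed noalg).trans rep_sym).trans (rep_sub Δ hΔ)

theorem rep_perm (Γ : Subgroup Sym) (hΓ : IsClosed (Γ : Set Sym))
    (noalg : ∀ (F : Finset ℕ) (a : ℕ), a ∉ F →
      {b | ∃ g ∈ Γ, (∀ c ∈ F, g.toMap c = c) ∧ g.toMap a = b}.Infinite)
    (Δ : Subgroup Sym) (hΔ : IsClosed (Δ : Set Sym)) : Rep Γ Δ := by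
  let φ : Γ →* Equiv.Perm ℕ := Γ.subtype
  refine rep_all φ (fun a b => ?_) (fun σ hσ => ?_) (fun F a ha => ?_) Δ hΔ
  · have h1 : MeasurableSet {π : Sym | π.toMap a = b} := (isOpen_basic a b).measurableSet
    exact measurable_subtype_coe h1
  · have h1 := closed_of Γ hΓ σ fun F => by
      obtain ⟨g, hg⟩ := hσ F
      exact ⟨g.1, g.2, hg⟩
    exact ⟨⟨σ, h1⟩, rfl⟩
  · refine (noalg F a ha).mono ?_
    rintro b ⟨g, h1, h2, h3⟩
    exact ⟨⟨g, h1⟩, h2, h3⟩

end Pool.Agent.V11227.NA
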