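import Pool.Agent.V11227.NA.Main
import Pool.Agent.V1170.UT.Ind
import Pool.Agent.H468R2.KA.P_F_top

set_option autoImplicit false

/-! The dichotomy passes to closed subgroups; the Polish group of all permutations of `ℕ`. -/

namespace Pool.Agent.V11227.NA

open Set Function Pool.Agent.W889.TV

theorem tvc_sub {U : Type} [TopologicalSpace U] [Group U] [IsTopologicalGroup U]
    [PolishSpace U] [MeasurableSpace U] [BorelSpace U] (H : Subgroup U)
    (hH : IsClosed (H : Set U)) (h : TVC U) : TVC H := by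
  intro X _ _ _ _
  obtain ⟨σ, h1, h2, h3⟩ := Pool.Agent.V1170.UT.coset_selector U H hH
  haveI : PolishSpace H := hH.polishSpace
  let D : Pool.Agent.V1170.UT.Dat U H :=
    { G := H, p := MonoidHom.id H, hp := continuous_id, hs := fun x => ⟨x, rfl⟩,
      σ := σ, hσ := h1, mem := h2, inv := h3 }
  exact Pool.Agent.V1170.UT.cp_transfer D (h (Pool.Agent.V1170.UT.Sp D X))

/-- The group of all permutations of `ℕ`. -/
def Sym : Type := Equiv.Perm ℕ

instance : Group Sym := inferInstanceAs (Group (Equiv.Perm ℕ))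

/-- A permutation as a map. -/
def Sym.toMap (π : Sym) : ℕ → ℕ := fun i => (show Equiv.Perm ℕ from π) i

/-- The topology of pointwise convergence, generated by the sets `{π | π i = j}`. -/
instance : TopologicalSpace Sym :=
  TopologicalSpace.generateFrom {V | ∃ i j : ℕ, V = {π : Sym | π.toMap i = j}}

instance : MeasurableSpace Sym := borel Sym

instance : BorelSpace Sym := ⟨rfl⟩

instance : PolishSpace Sym := by
  have h : @Topology.IsClosedEmbedding Sym ((ℕ → ℕ) × (ℕ → ℕ)) _ _
      (fun π => (((show Equiv.Perm ℕ from π) : ℕ → ℕ), ((show Equiv.Perm ℕ from π).symm : ℕ → ℕ))) :=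
    Pool.Agent.H468R2.KA.F_top_closedEmb
  exact h.polishSpace

theorem isOpen_basic (i j : ℕ) : IsOpen {π : Sym | π.toMap i = j} :=
  TopologicalSpace.isOpen_generateFrom_of_mem ⟨i, j, rfl⟩

instance : IsTopologicalGroup Sym where
  continuous_mul := by
    refine continuous_generateFrom_iff.2 ?_
    rintro _ ⟨i, j, rfl⟩
    have e : (fun p : Sym × Sym => p.1 * p.2) ⁻¹' {π : Sym | π.toMap i = j} =
        ⋃ k : ℕ, {π : Sym | π.toMap k = j} ×ˢ {π : Sym | π.toMap i = k} := by
      ext p
      simp only [mem_preimage, mem_ofPred_eq, mem_iUnion, mem_prod]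
      constructor
      · intro h
        exact ⟨p.2.toMap i, h, rfl⟩
      · rintro ⟨k, h1, h2⟩
        show p.1.toMap (p.2.toMap i) = j
        rw [h2, h1]
    rw [e]
    exact isOpen_iUnion fun k => (isOpen_basic k j).prod (isOpen_basic i k)
  continuous_inv := by
    refine continuous_generateFrom_iff.2 ?_
    rintro _ ⟨i, j, rfl⟩
    have e : (fun p : Sym => p⁻¹) ⁻¹' {π : Sym | π.toMap i = j} = {π : Sym | π.toMap j = i} := by
      ext p
      show (show Equiv.Perm ℕ from p).symm i = j ↔ (show Equiv.Perm ℕ from p) j = i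
      rw [Equiv.symm_apply_eq, eq_comm]
    rw [e]
    exact isOpen_basic j i

theorem tvc_sym (h : TVC (Equiv.Perm ℕ)) : TVC Sym := by
  intro X _ _ i1 i2
  have hle : borel Sym ≤ (permM ℕ : MeasurableSpace (Equiv.Perm ℕ)) := by
    have e := borel_eq_generateFrom_of_subbasis (α := Sym)
      (s := {V | ∃ i j : ℕ, V = {π : Sym | π.toMap i = j}}) rfl
    rw [e]
    refine MeasurableSpace.generateFrom_le ?_
    rintro _ ⟨i, j, rfl⟩
    have hm : Measurable fun σ : Equiv.Perm ℕ => σ i :=
      (measurable_pi_apply i).comp (comap_measurable _)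
    exact hm (MeasurableSet.singleton j)
  letI a1 : MulAction (Equiv.Perm ℕ) X := i1
  haveI a2 : MeasurableSMul₂ (Equiv.Perm ℕ) X := by
    constructor
    have h3 : Measurable fun p : Sym × X => p.1 • p.2 := measurable_smul
    exact h3.mono (sup_le_sup (MeasurableSpace.comap_mono hle) le_rfl) le_rfl
  exact h X

/-- Closed subgroups of a Polish group `U` with a Borel homomorphism to the group of permutations of
`ℕ` with closed image without algebraicity: the dichotomy for `U` implies the one for `Sym`. -/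
theorem main_sym {U : Type} [TopologicalSpace U] [Group U] [IsTopologicalGroup U]
    [PolishSpace U] [MeasurableSpace U] [BorelSpace U] (H : Subgroup U)
    (hH : IsClosed (H : Set U)) (φ : H →* Equiv.Perm ℕ)
    (hφ : ∀ a b, MeasurableSet {g : H | φ g a = b})
    (closed : ∀ σ : Equiv.Perm ℕ, (∀ F : Finset ℕ, ∃ g, ∀ a ∈ F, φ g a = σ a) → ∃ g, φ g = σ)
    (noalg : ∀ (F : Finset ℕ) (a : ℕ), a ∉ F →
      {b | ∃ g, (∀ c ∈ F, φ g c = c) ∧ φ g a = b}.Infinite)
    (h : TVC U) : TVC Sym :=
  tvc_sym (main φ hφ closed noalg (tvc_sub H hH h))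

/-- a closed subgroup is closed under pointwise limits -/
theorem closed_of (Γ : Subgroup Sym) (hΓ : IsClosed (Γ : Set Sym)) (σ : Sym)
    (h : ∀ F : Finset ℕ, ∃ g ∈ Γ, ∀ a ∈ F, g.toMap a = σ.toMap a) : σ ∈ Γ := by
  classical
  have h1 : σ ∈ closure (Γ : Set Sym) := by
    rw [mem_closure_iff]
    intro O hO hσ
    obtain ⟨m, hm⟩ := Pool.Agent.H468R2.KA.F_top_base O hO σ hσ
    obtain ⟨g, hg, hg'⟩ := h ((Finset.range m).image (show Equiv.Perm ℕ from σ).symm)
    refine ⟨g, hm g fun i hi => ?_, hg⟩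
    have h2 := hg' ((show Equiv.Perm ℕ from σ).symm i)
      (Finset.mem_image_of_mem _ (Finset.mem_range.2 hi))
    have h3 : σ.toMap ((show Equiv.Perm ℕ from σ).symm i) = i :=
      (show Equiv.Perm ℕ from σ).apply_symm_apply i
    rw [h3] at h2
    exact h2
  rwa [hΓ.closure_eq] at h1

/-- the dichotomy for one closed permutation group without algebraicity implies all others -/
theorem sub_sym (Γ : Subgroup Sym) (hΓ : IsClosed (Γ : Set Sym))
    (noalg : ∀ (F : Finset ℕ) (a : ℕ), a ∉ F →
      {b | ∃ g ∈ Γ, (∀ c ∈ F, g.toMap c = c) ∧ g.toMap a = b}.Infinite) (h : TVC Γ) : TVC Sym := by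
  let φ : Γ →* Equiv.Perm ℕ := Γ.subtype
  refine tvc_sym (main φ (fun a b => ?_) (fun σ hσ => ?_) (fun F a ha => ?_) h)
  · have h1 : MeasurableSet {π : Sym | π.toMap a = b} := (isOpen_basic a b).measurableSet
    exact measurable_subtype_coe h1
  · have h1 := closed_of Γ hΓ σ fun F => by
      obtain ⟨g, hg⟩ := hσ F
      exact ⟨g.1, g.2, hg⟩
    exact ⟨⟨σ, h1⟩, rfl⟩
  · refine (noalg F a ha).mono ?_
    rintro b ⟨g, h1, h2, h3⟩
    exact ⟨⟨g, h1⟩, h2, h3⟩

end Pool.Agent.V11227.NA
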